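import Pool.Agent.N332.GK.Defs

/-! GK/T2 (helper55, project GK of helper332): interpolation of mixed moments. -/

set_option autoImplicit false

namespace Pool.Agent.N55.GKT

open Finset Pool.Agent.N356.SP Pool.Agent.N332.GK

lemma pw_interp {k j : ℕ} (hk : 2 ≤ k) (hj2 : 2 ≤ j) (hj : j ≤ 2 * k) {α : ℝ} (hα : 0 < α)
    (p q : ℝ) :
    |p ^ (2 * k - j) * q ^ j| ≤ α ^ ((2 * (k : ℝ) - j) / (2 * (k : ℝ) - 2)) *
      (((2 * (k : ℝ) - j) / (2 * (k : ℝ) - 2)) * (p ^ (2 * k - 2) * q ^ 2 / α) +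
        (1 - (2 * (k : ℝ) - j) / (2 * (k : ℝ) - 2)) * q ^ (2 * k)) := by
  have hk' : (2:ℝ) ≤ k := by exact_mod_cast hk
  have hj2' : (2:ℝ) ≤ j := by exact_mod_cast hj2
  have hj' : (j:ℝ) ≤ 2 * k := by exact_mod_cast hj
  set v : ℝ := (2 * (k : ℝ) - j) / (2 * (k : ℝ) - 2) with hv
  have hd : (0:ℝ) < 2 * (k : ℝ) - 2 := by linarith
  have hv0 : 0 ≤ v := div_nonneg (by linarith) hd.le
  have hv1 : v ≤ 1 := by rw [hv, div_le_one hd]; linarith
  have e1 : (2 * k - 2 : ℕ) = 2 * (k - 1) := by omega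
  have hP : 0 ≤ p ^ (2 * k - 2) * q ^ 2 / α := by
    rw [e1, pow_mul]; positivity
  have hQ : 0 ≤ q ^ (2 * k) := by rw [pow_mul]; positivity
  have hR : 0 ≤ α ^ v * (v * (p ^ (2 * k - 2) * q ^ 2 / α) + (1 - v) * q ^ (2 * k)) := by
    have : 0 ≤ 1 - v := by linarith
    positivity
  rcases eq_or_ne q 0 with hq | hq
  · have : q ^ j = 0 := by rw [hq]; exact zero_pow (by omega)
    rw [this, mul_zero, abs_zero]
    exact hR
  rcases eq_or_ne p 0 with hp | hp
  · rcases hj.lt_or_eq with h | h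
    · have : p ^ (2 * k - j) = 0 := by rw [hp]; exact zero_pow (by omega)
      rw [this, zero_mul, abs_zero]
      exact hR
    · have hv' : v = 0 := by rw [hv, h]; push_cast; simp
      rw [hv', h]
      simp only [Nat.sub_self, pow_zero, one_mul, Real.rpow_zero, zero_mul, zero_add, sub_zero]
      rw [abs_of_nonneg hQ]
  have ha : 0 < |p| := abs_pos.2 hp
  have hb : 0 < |q| := abs_pos.2 hq
  have e2 : p ^ (2 * k - 2) = |p| ^ (2 * k - 2) := by
    rw [e1, pow_mul, pow_mul, sq_abs]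
  have e3 : q ^ (2 * k) = |q| ^ (2 * k) := by
    rw [pow_mul, pow_mul, sq_abs]
  have key := Real.geom_mean_le_arith_mean2_weighted hv0 (by linarith : 0 ≤ 1 - v) hP hQ (by ring)
  refine le_trans (le_of_eq ?_) (mul_le_mul_of_nonneg_left key (Real.rpow_nonneg hα.le v))
  rw [abs_mul, abs_pow, abs_pow, e2, e3, ← sq_abs q]
  rw [Real.div_rpow (by positivity) hα.le, Real.mul_rpow (by positivity) (by positivity)]
  rw [← Real.rpow_natCast |p| (2 * k - 2), ← Real.rpow_natCast |q| 2, ← Real.rpow_natCast |q| (2 * k),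
    ← Real.rpow_mul ha.le, ← Real.rpow_mul hb.le, ← Real.rpow_mul hb.le,
    ← Real.rpow_natCast |p| (2 * k - j), ← Real.rpow_natCast |q| j]
  have hαv : α ^ v ≠ 0 := (Real.rpow_pos_of_pos hα v).ne'
  have c1 : ((2 * k - 2 : ℕ) : ℝ) = 2 * (k:ℝ) - 2 := by
    rw [Nat.cast_sub (by omega)]; push_cast; ring
  have c2 : ((2 * k - j : ℕ) : ℝ) = 2 * (k:ℝ) - j := by
    rw [Nat.cast_sub (by omega)]; push_cast; ring
  have c3 : ((2 * k : ℕ) : ℝ) = 2 * (k:ℝ) := by push_cast; ring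
  have c4 : (2 * (k:ℝ) - 2) * v = 2 * (k:ℝ) - j := by
    rw [hv, mul_comm]; exact div_mul_cancel₀ _ hd.ne'
  rw [c1, c2, c3, c4]
  have c5 : |q| ^ ((j:ℝ)) = |q| ^ (((2:ℕ):ℝ) * v) * |q| ^ (2 * (k:ℝ) * (1 - v)) := by
    rw [← Real.rpow_add hb]
    congr 1
    push_cast
    linarith [c4]
  rw [c5]
  field_simp

lemma cosp_cont (g : ℤ →₀ ℝ) : Continuous (cosp g) := by
  unfold cosp Finsupp.sum
  fun_prop

lemma AJ_cont (i j : ℕ) (g f : ℤ →₀ ℝ) :
    Continuous fun x => cosp g x ^ i * cosp f x ^ j :=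
  ((cosp_cont g).pow i).mul ((cosp_cont f).pow j)

/-- T2: interpolation between the second and the last mixed moment -/
theorem AJ_interp {k j : ℕ} (hk : 2 ≤ k) (hj2 : 2 ≤ j) (hj : j ≤ 2 * k) (g f : ℤ →₀ ℝ)
    {c α : ℝ} (hc : 0 ≤ c) (hα : 0 < α) (h2 : AJ (2 * k - 2) 2 g f ≤ α * c) (hF : Mc k f ≤ c) :
    |AJ (2 * k - j) j g f| ≤ c * α ^ ((2 * (k : ℝ) - j) / (2 * (k : ℝ) - 2)) := by
  have hk' : (2:ℝ) ≤ k := by exact_mod_cast hk
  have hj2' : (2:ℝ) ≤ j := by exact_mod_cast hj2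
  have hj' : (j:ℝ) ≤ 2 * k := by exact_mod_cast hj
  have hpw := pw_interp hk hj2 hj hα
  set v : ℝ := (2 * (k : ℝ) - j) / (2 * (k : ℝ) - 2) with hv
  have hd : (0:ℝ) < 2 * (k : ℝ) - 2 := by linarith
  have hv0 : 0 ≤ v := div_nonneg (by linarith) hd.le
  have hv1 : v ≤ 1 := by rw [hv, div_le_one hd]; linarith
  have hA : 0 < α ^ v := Real.rpow_pos_of_pos hα v
  have h1 : |AJ (2 * k - j) j g f| ≤
      ∫ x in (0:ℝ)..1, |cosp g x ^ (2 * k - j) * cosp f x ^ j| := by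
    unfold AJ
    exact intervalIntegral.abs_integral_le_integral_abs zero_le_one
  have h3 : ∫ x in (0:ℝ)..1, |cosp g x ^ (2 * k - j) * cosp f x ^ j| ≤
      ∫ x in (0:ℝ)..1, α ^ v * (v * (cosp g x ^ (2 * k - 2) * cosp f x ^ 2 / α) +
        (1 - v) * cosp f x ^ (2 * k)) := by
    refine intervalIntegral.integral_mono_on zero_le_one ?_ ?_ ?_
    · exact (AJ_cont _ _ g f).abs.intervalIntegrable _ _
    · refine Continuous.intervalIntegrable ?_ _ _
      exact continuous_const.mul ((continuous_const.mul ((AJ_cont _ _ g f).div_const _)).add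
        (continuous_const.mul ((cosp_cont f).pow _)))
    · intro x _
      exact hpw (cosp g x) (cosp f x)
  have h4 : ∫ x in (0:ℝ)..1, α ^ v * (v * (cosp g x ^ (2 * k - 2) * cosp f x ^ 2 / α) +
        (1 - v) * cosp f x ^ (2 * k)) =
      α ^ v * (v * (AJ (2 * k - 2) 2 g f / α) + (1 - v) * Mc k f) := by
    rw [intervalIntegral.integral_const_mul, intervalIntegral.integral_add,
      intervalIntegral.integral_const_mul, intervalIntegral.integral_const_mul,
      intervalIntegral.integral_div]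
    · rfl
    · exact (continuous_const.mul ((AJ_cont _ _ g f).div_const _)).intervalIntegrable _ _
    · exact (continuous_const.mul
        ((cosp_cont f).pow _)).intervalIntegrable _ _
  have h5 : v * (AJ (2 * k - 2) 2 g f / α) + (1 - v) * Mc k f ≤ c := by
    have a1 : AJ (2 * k - 2) 2 g f / α ≤ c := by
      rw [div_le_iff₀ hα]; linarith
    have a2 := mul_le_mul_of_nonneg_left a1 hv0
    have a3 := mul_le_mul_of_nonneg_left hF (by linarith : 0 ≤ 1 - v)
    linarith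
  calc |AJ (2 * k - j) j g f| ≤ _ := h1.trans h3
    _ = _ := h4
    _ ≤ α ^ v * c := mul_le_mul_of_nonneg_left h5 hA.le
    _ = _ := mul_comm _ _

end Pool.Agent.N55.GKT
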